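import Pool.Agent.WeakNonCompactness.Defs

/-!
# Agreement of the definitions with Mathlib's weak* topology
-/

open NormedSpace Filter Topology
open scoped ENNReal

namespace Pool.Agent.WeakNonCompactness

noncomputable section

variable {E : Type*} [NormedAddCommGroup E] [NormedSpace ℂ E]

/-- the canonical map into the bidual with its weak* topology -/
def toBidual (a : E) : WeakDual ℂ (StrongDual ℂ E) :=
  StrongDual.toWeakDual (inclusionInDoubleDual ℂ E a)

lemma toBidual_apply (a : E) (μ : StrongDual ℂ E) : toBidual a μ = μ a := rfl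

/-- the basic weak* neighbourhoods form a basis -/
lemma mem_nhds_iff' (x : WeakDual ℂ (StrongDual ℂ E)) (U : Set (WeakDual ℂ (StrongDual ℂ E))) :
    U ∈ 𝓝 x ↔ ∃ (F : Finset (StrongDual ℂ E)) (ε : ℝ), 0 < ε ∧
      {y : WeakDual ℂ (StrongDual ℂ E) | ∀ μ ∈ F, ‖x μ - y μ‖ < ε} ⊆ U := by
  have hind : 𝓝 x = comap (fun (y : WeakDual ℂ (StrongDual ℂ E)) (μ : StrongDual ℂ E) => y μ)
      (𝓝 fun μ => x μ) := nhds_induced _ _
  constructor
  · intro hU
    rw [hind, mem_comap] at hU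
    obtain ⟨V, hV, hVU⟩ := hU
    rw [nhds_pi, mem_pi] at hV
    obtain ⟨I, hI, t, ht, htV⟩ := hV
    have h1 : ∀ μ : StrongDual ℂ E, ∃ ε : ℝ, 0 < ε ∧ Metric.ball (x μ) ε ⊆ t μ := fun μ =>
      Metric.mem_nhds_iff.1 (ht μ)
    choose e he1 he2 using h1
    refine ⟨hI.toFinset, (insert 1 (hI.toFinset.image e)).min' (by simp), ?_, ?_⟩
    · rw [Finset.lt_min'_iff]
      intro y hy
      rw [Finset.mem_insert, Finset.mem_image] at hy
      rcases hy with rfl | ⟨μ, _, rfl⟩
      · exact one_pos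
      · exact he1 μ
    · intro y hy
      apply hVU
      apply htV
      intro μ hμ
      apply he2
      rw [Metric.mem_ball, dist_comm, dist_eq_norm]
      refine lt_of_lt_of_le (hy μ (hI.mem_toFinset.2 hμ)) (Finset.min'_le _ _ ?_)
      exact Finset.mem_insert_of_mem (Finset.mem_image_of_mem _ (hI.mem_toFinset.2 hμ))
  · rintro ⟨F, ε, hε, hFU⟩
    refine mem_of_superset ?_ hFU
    have h1 : ∀ μ ∈ F, {y : WeakDual ℂ (StrongDual ℂ E) | ‖x μ - y μ‖ < ε} ∈ 𝓝 x := by
      intro μ _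
      have hc : Continuous fun y : WeakDual ℂ (StrongDual ℂ E) => y μ :=
        WeakDual.eval_continuous μ
      have ho : IsOpen {y : WeakDual ℂ (StrongDual ℂ E) | ‖x μ - y μ‖ < ε} :=
        isOpen_lt (continuous_const.sub hc).norm continuous_const
      exact ho.mem_nhds (by simpa using hε)
    have h2 := (Filter.biInter_finset_mem F).2 h1
    refine mem_of_superset h2 ?_
    intro y hy μ hμ
    exact Set.mem_iInter₂.1 hy μ hμ

theorem mem_weakStarClosure_iff (A : Set E) (x : StrongDual ℂ (StrongDual ℂ E)) :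
    x ∈ weakStarClosure A ↔
      StrongDual.toWeakDual x ∈ closure ((toBidual : E → WeakDual ℂ (StrongDual ℂ E)) '' A) := by
  rw [mem_closure_iff_nhds]
  constructor
  · intro h U hU
    obtain ⟨F, ε, hε, hFU⟩ := (mem_nhds_iff' _ _).1 hU
    obtain ⟨a, ha, haF⟩ := h F ε hε
    exact ⟨toBidual a, hFU haF, a, ha, rfl⟩
  · intro h F ε hε
    obtain ⟨_, hy, a, ha, rfl⟩ := h _ ((mem_nhds_iff' _ _).2 ⟨F, ε, hε, Set.Subset.rfl⟩)
    exact ⟨a, ha, hy⟩

theorem mem_clust_iff (s : ℕ → E) (x : StrongDual ℂ (StrongDual ℂ E)) :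
    x ∈ clust s ↔ MapClusterPt (StrongDual.toWeakDual x) atTop fun n => toBidual (s n) := by
  rw [mapClusterPt_iff_frequently]
  constructor
  · intro h U hU
    obtain ⟨F, ε, hε, hFU⟩ := (mem_nhds_iff' _ _).1 hU
    rw [frequently_atTop]
    intro N
    obtain ⟨n, hn, hnF⟩ := h F ε hε N
    exact ⟨n, hn, hFU hnF⟩
  · intro h F ε hε N
    have h1 := h _ ((mem_nhds_iff' _ _).2 ⟨F, ε, hε, Set.Subset.rfl⟩)
    rw [frequently_atTop] at h1
    obtain ⟨n, hn, hn2⟩ := h1 N
    exact ⟨n, hn, hn2⟩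

end

end Pool.Agent.WeakNonCompactness
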