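import Mathlib

/-!
# Measures of weak non-compactness: definitions

`E` is a complex Banach space and `StrongDual ℂ (StrongDual ℂ E)` its bidual. The weak* closure and
weak* cluster points are written out with the basic weak* neighbourhoods
`{y : |(y - x)(μ)| < ε for μ ∈ F}`, `F` a finite set of functionals on `E`; the file
`Pool/Agent/WeakNonCompactness/Check.lean` proves that they agree with Mathlib's `closure` and
`MapClusterPt` in `WeakDual`.
-/

open NormedSpace Filter
open scoped ENNReal

namespace Pool.Agent.WeakNonCompactness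

noncomputable section

variable {E : Type*} [NormedAddCommGroup E] [NormedSpace ℂ E]

/-- `L` is weakly compact. -/
def IsWeaklyCompact (L : Set E) : Prop := IsCompact (toWeakSpace ℂ E '' L)

/-- The De Blasi measure
`ω(A) = inf {sup_{a ∈ A} dist(a,L) : L ≠ ∅ weakly compact}`, a value in `[0,∞]`. -/
def omega (A : Set E) : ℝ≥0∞ :=
  ⨅ (L : Set E) (_ : L.Nonempty ∧ IsWeaklyCompact L), ⨆ a ∈ A, Metric.infEDist a L

/-- The distance of an element of the bidual to the canonical image of `E`. -/
def distToSpace (x : StrongDual ℂ (StrongDual ℂ E)) : ℝ≥0∞ :=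
  ⨅ h : E, ENNReal.ofReal ‖x - inclusionInDoubleDual ℂ E h‖

/-- The weak* closure of (the canonical image of) `A` in the bidual. -/
def weakStarClosure (A : Set E) : Set (StrongDual ℂ (StrongDual ℂ E)) :=
  {x | ∀ (F : Finset (StrongDual ℂ E)) (ε : ℝ), 0 < ε → ∃ a ∈ A, ∀ μ ∈ F, ‖x μ - μ a‖ < ε}

/-- `wk(A) = sup {dist(x,E) : x in the weak* closure of A}`. -/
def wk (A : Set E) : ℝ≥0∞ := ⨆ x ∈ weakStarClosure A, distToSpace x

/-- The set of weak* cluster points in the bidual of a sequence in `E`. -/
def clust (s : ℕ → E) : Set (StrongDual ℂ (StrongDual ℂ E)) :=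
  {x | ∀ (F : Finset (StrongDual ℂ E)) (ε : ℝ), 0 < ε →
    ∀ N : ℕ, ∃ n ≥ N, ∀ μ ∈ F, ‖x μ - μ (s n)‖ < ε}

/-- `wck(A) = sup {dist(clust(s), E) : s a sequence in A}`, where the distance of two sets is the
infimum of the distances of their points. -/
def wck (A : Set E) : ℝ≥0∞ := ⨆ (s : ℕ → E) (_ : ∀ n, s n ∈ A), ⨅ x ∈ clust s, distToSpace x

end

end Pool.Agent.WeakNonCompactness
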