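import Pool.Agent.WeakNonCompactness.Defs

open NormedSpace Filter Topology
open scoped ENNReal

namespace Pool.Agent.WeakNonCompactness

noncomputable section

/-! ### the digit functions -/

/-- a trapezoid: one on `[1,4/3]`, zero outside `(1/2,2)` -/
def beta (u : ℝ) : ℝ := max 0 (min 1 (min (2 * u - 1) (3 - 3 / 2 * u)))

lemma beta_nonneg (u : ℝ) : 0 ≤ beta u := le_max_left _ _

lemma beta_le_one (u : ℝ) : beta u ≤ 1 := max_le zero_le_one (min_le_left _ _)

lemma beta_eq_one {u : ℝ} (h1 : 1 ≤ u) (h2 : u ≤ 4 / 3) : beta u = 1 := by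
  unfold beta
  rw [min_eq_left (le_min (by linarith) (by linarith)), max_eq_right zero_le_one]

lemma beta_eq_zero_of_le {u : ℝ} (h : u ≤ 1 / 2) : beta u = 0 := by
  unfold beta
  refine max_eq_left ((min_le_right _ _).trans ((min_le_left _ _).trans (by linarith)))

lemma beta_eq_zero_of_ge {u : ℝ} (h : 2 ≤ u) : beta u = 0 := by
  unfold beta
  refine max_eq_left ((min_le_right _ _).trans ((min_le_right _ _).trans (by linarith)))

lemma continuous_beta : Continuous beta := by unfold beta; fun_prop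

lemma beta_mul_pow_disjoint {i j : ℕ} (h : i < j) {t : ℝ} (hi : beta (4 ^ i * t) ≠ 0) :
    beta (4 ^ j * t) = 0 := by
  have h1 : 1 / 2 < 4 ^ i * t := by
    by_contra hc
    exact hi (beta_eq_zero_of_le (not_lt.1 hc))
  apply beta_eq_zero_of_ge
  have h2 : (4 : ℝ) ^ (i + 1) ≤ 4 ^ j := pow_le_pow_right₀ (by norm_num) h
  have h3 : 0 < t := by
    by_contra hc
    rw [not_lt] at hc
    have : (4 : ℝ) ^ i * t ≤ 0 := mul_nonpos_of_nonneg_of_nonpos (by positivity) hc
    linarith
  calc (2 : ℝ) ≤ 4 * (4 ^ i * t) := by linarith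
    _ = 4 ^ (i + 1) * t := by ring
    _ ≤ 4 ^ j * t := by gcongr

lemma sum_beta_le (F : Finset ℕ) (t : ℝ) : ∑ i ∈ F, beta (4 ^ i * t) ≤ 1 := by
  classical
  by_cases h : ∃ i ∈ F, beta (4 ^ i * t) ≠ 0
  · obtain ⟨i, hi, hne⟩ := h
    rw [Finset.sum_eq_single i]
    · exact beta_le_one _
    · intro j _ hji
      rcases lt_or_gt_of_ne hji with h | h
      · by_contra hj
        exact hne (beta_mul_pow_disjoint h hj)
      · exact beta_mul_pow_disjoint h hne
    · intro h; exact absurd hi h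
  · rw [not_exists] at h
    rw [Finset.sum_eq_zero]
    · exact zero_le_one
    · intro i hi
      by_contra hc
      exact h i ⟨hi, hc⟩

/-- `xx r j t` is a continuous version of: the `(r+1)`-st nonzero base-4 digit of `t` is in
position `j`. -/
def xx : ℕ → ℕ → ℝ → ℝ
  | 0, j, t => beta (4 ^ j * t)
  | r + 1, j, t => ∑ i ∈ Finset.range j, beta (4 ^ i * t) * xx r j (t - (4 ^ i)⁻¹)

lemma xx_zero (j : ℕ) (t : ℝ) : xx 0 j t = beta (4 ^ j * t) := rfl

lemma xx_succ (r j : ℕ) (t : ℝ) :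
    xx (r + 1) j t = ∑ i ∈ Finset.range j, beta (4 ^ i * t) * xx r j (t - (4 ^ i)⁻¹) := rfl

lemma xx_nonneg (r j : ℕ) (t : ℝ) : 0 ≤ xx r j t := by
  induction r generalizing t with
  | zero => exact beta_nonneg _
  | succ r ih =>
    rw [xx_succ]
    exact Finset.sum_nonneg fun i _ => mul_nonneg (beta_nonneg _) (ih _)

lemma continuous_xx (r j : ℕ) : Continuous (xx r j) := by
  induction r with
  | zero =>
    have : xx 0 j = fun t => beta (4 ^ j * t) := rfl
    rw [this]
    exact continuous_beta.comp (by fun_prop)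
  | succ r ih =>
    have : xx (r + 1) j = fun t => ∑ i ∈ Finset.range j, beta (4 ^ i * t) * xx r j (t - (4 ^ i)⁻¹) :=
      rfl
    rw [this]
    refine continuous_finsetSum _ fun i _ => ?_
    exact (continuous_beta.comp (by fun_prop)).mul (ih.comp (by fun_prop))

lemma sum_xx_le (r : ℕ) (F : Finset ℕ) (t : ℝ) : ∑ j ∈ F, xx r j t ≤ 1 := by
  induction r generalizing t with
  | zero => exact sum_beta_le F t
  | succ r ih =>
    obtain ⟨M, hM⟩ := F.exists_nat_subset_range
    calc ∑ j ∈ F, xx (r + 1) j t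
        ≤ ∑ j ∈ F, ∑ i ∈ Finset.range M, beta (4 ^ i * t) * xx r j (t - (4 ^ i)⁻¹) := by
          refine Finset.sum_le_sum fun j hj => ?_
          rw [xx_succ]
          refine Finset.sum_le_sum_of_subset_of_nonneg ?_ fun i _ _ =>
            mul_nonneg (beta_nonneg _) (xx_nonneg _ _ _)
          exact Finset.range_subset_range.2 (Finset.mem_range.1 (hM hj)).le
      _ = ∑ i ∈ Finset.range M, beta (4 ^ i * t) * ∑ j ∈ F, xx r j (t - (4 ^ i)⁻¹) := by
          rw [Finset.sum_comm]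
          exact Finset.sum_congr rfl fun i _ => (Finset.mul_sum _ _ _).symm
      _ ≤ ∑ i ∈ Finset.range M, beta (4 ^ i * t) * 1 := by
          refine Finset.sum_le_sum fun i _ => ?_
          exact mul_le_mul_of_nonneg_left (ih _) (beta_nonneg _)
      _ ≤ 1 := by simpa using sum_beta_le (Finset.range M) t

/-! ### the points -/

/-- the point with digit one at the positions in the list -/
def pt (l : List ℕ) : ℝ := (l.map fun j => ((4 : ℝ) ^ j)⁻¹).sum

lemma pt_nil : pt [] = 0 := rfl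

lemma pt_cons (i : ℕ) (l : List ℕ) : pt (i :: l) = ((4 : ℝ) ^ i)⁻¹ + pt l := by
  simp [pt]

lemma pt_append (l : List ℕ) (j : ℕ) : pt (l ++ [j]) = pt l + ((4 : ℝ) ^ j)⁻¹ := by
  simp [pt]

lemma pt_nonneg (l : List ℕ) : 0 ≤ pt l := by
  unfold pt
  refine List.sum_nonneg fun x hx => ?_
  rw [List.mem_map] at hx
  obtain ⟨j, _, rfl⟩ := hx
  positivity

lemma pt_le {i : ℕ} {l : List ℕ} (h : (i :: l).Pairwise (· < ·)) :
    pt l ≤ 1 / 3 * ((4 : ℝ) ^ i)⁻¹ := by
  induction l generalizing i with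
  | nil => rw [pt_nil]; positivity
  | cons j l ih =>
    rw [List.pairwise_cons] at h
    have h1 := ih h.2
    have hij : i < j := h.1 j (by simp)
    rw [pt_cons]
    have h2 : ((4 : ℝ) ^ j)⁻¹ ≤ ((4 : ℝ) ^ (i + 1))⁻¹ := by
      apply inv_anti₀ (by positivity)
      exact pow_le_pow_right₀ (by norm_num) hij
    have h3 : ((4 : ℝ) ^ (i + 1))⁻¹ = 1 / 4 * ((4 : ℝ) ^ i)⁻¹ := by
      rw [pow_succ, mul_inv]; ring
    rw [h3] at h2
    linarith

lemma beta_pt {i0 : ℕ} {l : List ℕ} (h : (i0 :: l).Pairwise (· < ·)) (i : ℕ) :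
    beta (4 ^ i * pt (i0 :: l)) = if i = i0 then 1 else 0 := by
  have h1 := pt_le h
  have h0 := pt_nonneg l
  have hpos : (0 : ℝ) < 4 ^ i0 := by positivity
  rw [pt_cons]
  split_ifs with hi
  · subst hi
    have e : (4 : ℝ) ^ i * ((4 ^ i)⁻¹ + pt l) = 1 + 4 ^ i * pt l := by field_simp
    rw [e]
    have h2 : (4 : ℝ) ^ i * pt l ≤ 1 / 3 := by
      calc (4 : ℝ) ^ i * pt l ≤ 4 ^ i * (1 / 3 * ((4 : ℝ) ^ i)⁻¹) := by gcongr
        _ = 1 / 3 := by field_simp
    have h3 : 0 ≤ (4 : ℝ) ^ i * pt l := by positivity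
    exact beta_eq_one (by linarith) (by linarith)
  · rcases lt_or_gt_of_ne hi with h | h
    · apply beta_eq_zero_of_le
      have h2 : (4 : ℝ) ^ (i + 1) ≤ 4 ^ i0 := pow_le_pow_right₀ (by norm_num) h
      have h3 : (4 : ℝ) ^ i ≤ 1 / 4 * 4 ^ i0 := by rw [pow_succ] at h2; linarith
      calc (4 : ℝ) ^ i * ((4 ^ i0)⁻¹ + pt l) ≤ (1 / 4 * 4 ^ i0) * ((4 ^ i0)⁻¹ + 1 / 3 * (4 ^ i0)⁻¹) := by
            gcongr
        _ = 1 / 3 := by field_simp; norm_num
        _ ≤ 1 / 2 := by norm_num
    · apply beta_eq_zero_of_ge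
      have h2 : (4 : ℝ) ^ (i0 + 1) ≤ 4 ^ i := pow_le_pow_right₀ (by norm_num) h
      calc (2 : ℝ) ≤ 4 ^ (i0 + 1) * (4 ^ i0)⁻¹ := by
            rw [pow_succ]; field_simp; norm_num
        _ ≤ 4 ^ i * ((4 ^ i0)⁻¹ + pt l) := by
            gcongr
            linarith

/-- the value of the last digit function at a point -/
lemma xx_pt (l : List ℕ) (j0 j : ℕ) (h : (l ++ [j0]).Pairwise (· < ·)) :
    xx l.length j (pt (l ++ [j0])) = if j = j0 then 1 else 0 := by
  induction l with
  | nil =>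
    rw [List.length_nil, xx_zero]
    exact beta_pt (by simp) j
  | cons i0 l ih =>
    have hcons : (i0 :: (l ++ [j0])).Pairwise (· < ·) := h
    have htail : (l ++ [j0]).Pairwise (· < ·) := (List.pairwise_cons.1 hcons).2
    have hi0 : i0 < j0 := (List.pairwise_cons.1 hcons).1 j0 (by simp)
    rw [List.length_cons, xx_succ]
    have hstep : ∀ i ∈ Finset.range j, beta (4 ^ i * pt (i0 :: l ++ [j0])) *
        xx l.length j (pt (i0 :: l ++ [j0]) - (4 ^ i)⁻¹) =
        if i = i0 then (if j = j0 then 1 else 0) else 0 := by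
      intro i _
      rw [List.cons_append, beta_pt hcons]
      by_cases hi : i = i0
      · subst hi
        rw [if_pos rfl, if_pos rfl, one_mul, pt_cons, add_sub_cancel_left]
        exact ih htail
      · rw [if_neg hi, if_neg hi, zero_mul]
    rw [Finset.sum_congr rfl hstep]
    by_cases hj : j = j0
    · subst hj
      simp [hi0]
    · simp [hj]


/-! ### the functions on `[0,1]` -/

abbrev CI := C(unitInterval, ℂ)

def X (r j : ℕ) : CI := ⟨fun t => ((xx r j t : ℝ) : ℂ), by
  exact Complex.continuous_ofReal.comp ((continuous_xx r j).comp continuous_subtype_val)⟩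

lemma X_apply (r j : ℕ) (t : unitInterval) : X r j t = ((xx r j t : ℝ) : ℂ) := rfl

def S (r p q : ℕ) : CI := ∑ j ∈ Finset.Ioo p q, X r j

lemma S_apply (r p q : ℕ) (t : unitInterval) :
    S r p q t = ((∑ j ∈ Finset.Ioo p q, xx r j t : ℝ) : ℂ) := by
  unfold S
  rw [ContinuousMap.sum_apply]
  push_cast
  rfl

def aa : ℕ → ℕ → List ℕ → CI
  | _, _, [] => 0
  | r, i, k :: ks => S r i (i + k) + aa (r + 1) (i + k) ks

lemma aa_nil (r i : ℕ) : aa r i [] = 0 := rfl

lemma aa_cons (r i k : ℕ) (ks : List ℕ) :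
    aa r i (k :: ks) = S r i (i + k) + aa (r + 1) (i + k) ks := rfl

lemma norm_S_le (r p q : ℕ) : ‖S r p q‖ ≤ 1 := by
  rw [ContinuousMap.norm_le _ zero_le_one]
  intro t
  rw [S_apply, Complex.norm_real, Real.norm_eq_abs,
    abs_of_nonneg (Finset.sum_nonneg fun _ _ => xx_nonneg _ _ _)]
  exact sum_xx_le _ _ _

/-- the constant function one half -/
def half : CI := ContinuousMap.const _ (1 / 2)

lemma norm_S_sub_half (r p q : ℕ) : ‖S r p q - half‖ ≤ 1 / 2 := by
  rw [ContinuousMap.norm_le _ (by norm_num)]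
  intro t
  rw [ContinuousMap.sub_apply, S_apply]
  have h1 : half t = ((1 / 2 : ℝ) : ℂ) := by simp [half]
  rw [h1, ← Complex.ofReal_sub, Complex.norm_real, Real.norm_eq_abs, abs_le]
  have h2 := sum_xx_le r (Finset.Ioo p q) t
  have h3 : 0 ≤ ∑ j ∈ Finset.Ioo p q, xx r j t := Finset.sum_nonneg fun _ _ => xx_nonneg _ _ _
  constructor <;> linarith

lemma norm_aa_le (ks : List ℕ) : ∀ r i, ‖aa r i ks‖ ≤ ks.length := by
  induction ks with
  | nil => intro r i; simp [aa_nil]
  | cons k ks ih =>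
    intro r i
    rw [aa_cons, List.length_cons]
    push_cast
    refine (norm_add_le _ _).trans ?_
    have h1 := norm_S_le r i (i + k)
    have h2 := ih (r + 1) (i + k)
    linarith

lemma xx_at_zero (r j : ℕ) : xx r j 0 = 0 := by
  have hb : beta 0 = 0 := beta_eq_zero_of_le (by norm_num)
  cases r with
  | zero => rw [xx_zero, mul_zero, hb]
  | succ r =>
    rw [xx_succ]
    refine Finset.sum_eq_zero fun i _ => ?_
    rw [mul_zero, hb, zero_mul]

lemma S_at_zero (r p q : ℕ) : S r p q 0 = 0 := by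
  rw [S_apply]
  have : ∀ j ∈ Finset.Ioo p q, xx r j ((0 : unitInterval) : ℝ) = 0 := fun j _ => xx_at_zero r j
  rw [Finset.sum_eq_zero this, Complex.ofReal_zero]

lemma aa_at_zero (ks : List ℕ) : ∀ r i, aa r i ks 0 = 0 := by
  induction ks with
  | nil => intro r i; simp [aa_nil]
  | cons k ks ih =>
    intro r i
    rw [aa_cons, ContinuousMap.add_apply, S_at_zero, ih, add_zero]

/-! ### weak nullity of the tails -/

lemma norm_comb_le (r : ℕ) (F : Finset ℕ) (θ : ℕ → ℂ) (hθ : ∀ j, ‖θ j‖ ≤ 1) :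
    ‖∑ j ∈ F, θ j • X r j‖ ≤ 1 := by
  rw [ContinuousMap.norm_le _ zero_le_one]
  intro t
  rw [ContinuousMap.sum_apply]
  refine (norm_sum_le _ _).trans ?_
  refine le_trans (Finset.sum_le_sum fun j _ => ?_) (sum_xx_le r F t)
  rw [ContinuousMap.smul_apply, norm_smul, X_apply, Complex.norm_real, Real.norm_eq_abs,
    abs_of_nonneg (xx_nonneg _ _ _)]
  have h1 := xx_nonneg r j t
  have h2 := hθ j
  nlinarith

lemma summable_X (μ : StrongDual ℂ CI) (r : ℕ) : Summable fun j => ‖μ (X r j)‖ := by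
  refine summable_of_sum_le (fun j => norm_nonneg _) (c := ‖μ‖) fun F => ?_
  set θ : ℕ → ℂ := fun j => (starRingEnd ℂ) (μ (X r j)) / ‖μ (X r j)‖ with hθ
  have hθ1 : ∀ j, ‖θ j‖ ≤ 1 := by
    intro j
    simp only [hθ]
    rw [norm_div, RCLike.norm_conj, Complex.norm_real, norm_norm]
    exact div_self_le_one _
  have hθ2 : ∀ j, θ j * μ (X r j) = ((‖μ (X r j)‖ : ℝ) : ℂ) := by
    intro j
    simp only [hθ]
    by_cases h : μ (X r j) = 0
    · rw [h]; simp
    · have h1 : ((‖μ (X r j)‖ : ℝ) : ℂ) ≠ 0 := by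
        rw [Ne, Complex.ofReal_eq_zero, norm_eq_zero]; exact h
      rw [div_mul_eq_mul_div, div_eq_iff h1, mul_comm, Complex.mul_conj,
        Complex.normSq_eq_norm_sq]
      push_cast
      ring
  have h1 : μ (∑ j ∈ F, θ j • X r j) = ((∑ j ∈ F, ‖μ (X r j)‖ : ℝ) : ℂ) := by
    rw [map_sum]
    push_cast
    refine Finset.sum_congr rfl fun j _ => ?_
    rw [map_smul, smul_eq_mul, hθ2]
  have h2 := μ.le_opNorm (∑ j ∈ F, θ j • X r j)
  rw [h1, Complex.norm_real, Real.norm_eq_abs,
    abs_of_nonneg (Finset.sum_nonneg fun _ _ => norm_nonneg _)] at h2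
  have h3 := norm_comb_le r F θ hθ1
  have h4 := norm_nonneg μ
  nlinarith

lemma S_tail (μ : StrongDual ℂ CI) (r : ℕ) {ε : ℝ} (hε : 0 < ε) :
    ∃ M, ∀ p, M ≤ p → ∀ q, ‖μ (S r p q)‖ ≤ ε := by
  obtain ⟨s, hs⟩ := summable_iff_vanishing_norm.1 (summable_X μ r) ε hε
  obtain ⟨M, hM⟩ := s.exists_nat_subset_range
  refine ⟨M, fun p hp q => ?_⟩
  have h1 := hs (Finset.Ioo p q) ?_
  · rw [Real.norm_eq_abs, abs_of_nonneg (Finset.sum_nonneg fun _ _ => norm_nonneg _)] at h1
    refine le_trans ?_ h1.le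
    unfold S
    rw [map_sum]
    exact norm_sum_le _ _
  · rw [Finset.disjoint_left]
    intro j hj hjs
    have h2 := Finset.mem_range.1 (hM hjs)
    have h3 := (Finset.mem_Ioo.1 hj).1
    omega

lemma aa_tail (μ : StrongDual ℂ CI) (d : ℕ) : ∀ (r : ℕ) {ε : ℝ}, 0 < ε →
    ∃ M, ∀ i, M ≤ i → ∀ ks : List ℕ, ks.length = d → ‖μ (aa r i ks)‖ ≤ ε := by
  induction d with
  | zero =>
    intro r ε hε
    refine ⟨0, fun i _ ks hks => ?_⟩
    rw [List.length_eq_zero_iff.1 hks, aa_nil, map_zero, norm_zero]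
    exact hε.le
  | succ d ih =>
    intro r ε hε
    obtain ⟨M1, hM1⟩ := S_tail μ r (half_pos hε)
    obtain ⟨M2, hM2⟩ := ih (r + 1) (half_pos hε)
    refine ⟨max M1 M2, fun i hi ks hks => ?_⟩
    match ks, hks with
    | k :: ks, hks =>
      rw [aa_cons, map_add]
      refine (norm_add_le _ _).trans ?_
      have h1 := hM1 i ((le_max_left _ _).trans hi) (i + k)
      have h2 := hM2 (i + k) (((le_max_right _ _).trans hi).trans (Nat.le_add_right _ _)) ks
        (by simpa using hks)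
      linarith

/-! ### the upper bound for `wk` -/

section closure

variable {E : Type*} [NormedAddCommGroup E] [NormedSpace ℂ E]

lemma wsc_le {A : Set E} {x : StrongDual ℂ (StrongDual ℂ E)} (hx : x ∈ weakStarClosure A)
    (μ : StrongDual ℂ E) (c : ℂ) (δ : ℝ) (h : ∀ a ∈ A, ‖μ a - c‖ ≤ δ) : ‖x μ - c‖ ≤ δ := by
  refine le_of_forall_pos_le_add fun ε hε => ?_
  obtain ⟨a, ha, haF⟩ := hx {μ} ε hε
  have h1 := haF μ (Finset.mem_singleton_self μ)
  have h2 := h a ha
  have h3 : x μ - c = (μ a - c) + (x μ - μ a) := by ring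
  rw [h3]
  exact (norm_add_le _ _).trans (add_le_add h2 h1.le)

lemma wsc_union {A B : Set E} {x : StrongDual ℂ (StrongDual ℂ E)}
    (hx : x ∈ weakStarClosure (A ∪ B)) (hA : x ∉ weakStarClosure A) : x ∈ weakStarClosure B := by
  classical
  unfold weakStarClosure at hA
  rw [Set.mem_ofPred_eq] at hA
  push Not at hA
  obtain ⟨F, ε, hε, hF⟩ := hA
  intro G δ hδ
  obtain ⟨a, ha, haF⟩ := hx (F ∪ G) (min ε δ) (lt_min hε hδ)
  rcases ha with ha | ha
  · obtain ⟨μ, hμ, hle⟩ := hF a ha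
    exact absurd ((haF μ (Finset.mem_union_left _ hμ)).trans_le (min_le_left _ _)) (not_lt.2 hle)
  · exact ⟨a, ha, fun μ hμ => (haF μ (Finset.mem_union_right _ hμ)).trans_le (min_le_right _ _)⟩

lemma wsc_mono {A B : Set E} (h : A ⊆ B) : weakStarClosure A ⊆ weakStarClosure B := by
  intro x hx F ε hε
  obtain ⟨a, ha, haF⟩ := hx F ε hε
  exact ⟨a, h ha, haF⟩

lemma distToSpace_le (x : StrongDual ℂ (StrongDual ℂ E)) (h : E) {δ : ℝ}
    (hh : ‖x - inclusionInDoubleDual ℂ E h‖ ≤ δ) : distToSpace x ≤ ENNReal.ofReal δ :=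
  (iInf_le _ h).trans (ENNReal.ofReal_le_ofReal hh)

end closure

def family (r i : ℕ) (b : CI) (d : ℕ) : Set CI :=
  {f | ∃ ks : List ℕ, ks.length = d ∧ f = b + aa r i ks}

lemma ub (d : ℕ) : ∀ (r i : ℕ) (b : CI), ∀ x ∈ weakStarClosure (family r i b d),
    ∃ h : CI, ‖x - inclusionInDoubleDual ℂ CI h‖ ≤ 1 / 2 := by
  induction d with
  | zero =>
    intro r i b x hx
    refine ⟨b, ?_⟩
    refine ContinuousLinearMap.opNorm_le_bound _ (by norm_num) fun μ => ?_
    have hval : (x - inclusionInDoubleDual ℂ CI b) μ = x μ - μ b := rfl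
    rw [hval]
    have h2 := wsc_le hx μ (μ b) 0 ?_
    · have h4 := norm_nonneg μ
      linarith
    · rintro _ ⟨ks, hks, rfl⟩
      rw [List.length_eq_zero_iff.1 hks, aa_nil, add_zero, sub_self, norm_zero]
  | succ d ih =>
    intro r i b x hx
    -- the pieces
    set E : ℕ → Set CI := fun k => family (r + 1) (i + k) (b + S r i (i + k)) d with hE
    by_cases hk : ∃ k, x ∈ weakStarClosure (E k)
    · obtain ⟨k, hk⟩ := hk
      exact ih _ _ _ x hk
    · rw [not_exists] at hk
      -- all tails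
      have htail : ∀ M, x ∈ weakStarClosure (⋃ k ∈ Set.Ici M, E k) := by
        intro M
        induction M with
        | zero =>
          refine wsc_mono ?_ hx
          rintro _ ⟨ks, hks, rfl⟩
          match ks, hks with
          | k :: ks, hks =>
            refine Set.mem_biUnion (Set.mem_Ici.2 (Nat.zero_le k)) ⟨ks, by simpa using hks, ?_⟩
            rw [aa_cons, add_assoc]
        | succ M ihM =>
          have h1 : (⋃ k ∈ Set.Ici M, E k) ⊆ E M ∪ ⋃ k ∈ Set.Ici (M + 1), E k := by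
            refine Set.iUnion₂_subset fun k hkM => ?_
            rcases eq_or_lt_of_le (Set.mem_Ici.1 hkM) with h | h
            · subst h; exact Set.subset_union_left
            · exact Set.subset_union_of_subset_right
                (Set.subset_biUnion_of_mem (u := E) (Set.mem_Ici.2 h)) _
          exact wsc_union (wsc_mono h1 ihM) (hk M)
      refine ⟨b + half, ?_⟩
      refine ContinuousLinearMap.opNorm_le_bound _ (by norm_num) fun μ => ?_
      have hval : (x - inclusionInDoubleDual ℂ CI (b + half)) μ = x μ - μ (b + half) := rfl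
      rw [hval]
      refine le_of_forall_pos_le_add fun ε hε => ?_
      obtain ⟨M, hM⟩ := aa_tail μ d (r + 1) hε
      refine wsc_le (htail M) μ _ _ ?_
      intro f hf
      simp only [Set.mem_iUnion] at hf
      obtain ⟨k, hkM, ks, hks, rfl⟩ := hf
      have e1 : μ (b + S r i (i + k) + aa (r + 1) (i + k) ks) - μ (b + half) =
          μ (S r i (i + k) - half) + μ (aa (r + 1) (i + k) ks) := by
        simp only [map_add, map_sub]; ring
      rw [e1]
      refine (norm_add_le _ _).trans (add_le_add ?_ ?_)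
      · refine (μ.le_opNorm _).trans ?_
        have h1 := norm_S_sub_half r i (i + k)
        have h2 := norm_nonneg μ
        nlinarith
      · exact hM _ (le_trans (Set.mem_Ici.1 hkM) (Nat.le_add_left _ _)) ks hks

/-! ### the lower bound for `omega` -/

/-- the point of `[0,1]` with given digits -/
def P (l : List ℕ) : unitInterval := Set.projIcc 0 1 zero_le_one (pt l)

lemma P_coe {l : List ℕ} (h : (0 :: l).Pairwise (· < ·)) : ((P l : unitInterval) : ℝ) = pt l := by
  unfold P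
  have h1 := pt_le h
  have h2 := pt_nonneg l
  rw [Set.projIcc_of_mem zero_le_one (show pt l ∈ Set.Icc (0 : ℝ) 1 from
    ⟨h2, h1.trans (by norm_num)⟩)]

lemma P_nil : P [] = 0 := by
  apply Subtype.ext
  rw [P_coe (by simp)]
  rfl

lemma P_tendsto (l : List ℕ) : Tendsto (fun j : ℕ => P (l ++ [j])) atTop (𝓝 (P l)) := by
  unfold P
  refine (continuous_projIcc.tendsto (pt l)).comp ?_
  have h1 : Tendsto (fun j : ℕ => pt l + ((4 : ℝ) ^ j)⁻¹) atTop (𝓝 (pt l + 0)) := by
    refine tendsto_const_nhds.add ?_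
    exact tendsto_inv_atTop_zero.comp (tendsto_pow_atTop_atTop_of_one_lt (by norm_num))
  rw [add_zero] at h1
  exact h1.congr fun j => (pt_append l j).symm

lemma S_at_P {l : List ℕ} {j p q : ℕ} (h : (0 :: (l ++ [j])).Pairwise (· < ·)) (hp : p < j)
    (hq : j < q) : S l.length p q (P (l ++ [j])) = 1 := by
  rw [S_apply, P_coe h]
  have h' : (l ++ [j]).Pairwise (· < ·) := (List.pairwise_cons.1 h).2
  have h1 : ∀ i ∈ Finset.Ioo p q, xx l.length i (pt (l ++ [j])) = if i = j then 1 else 0 :=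
    fun i _ => xx_pt l j i h'
  rw [Finset.sum_congr rfl h1]
  simp [hp, hq]

/-- limits in a weakly compact set along an ultrafilter -/
lemma exists_limit {L : Set CI} (hL : IsWeaklyCompact L) (h : ℕ → CI) (hh : ∀ k, h k ∈ L) :
    ∃ y ∈ L, ∀ t : unitInterval,
      Tendsto (fun k => h k t) (hyperfilter ℕ : Filter ℕ) (𝓝 (y t)) := by
  have h1 := hL.ultrafilter_le_nhds ((hyperfilter ℕ).map fun k => toWeakSpace ℂ CI (h k)) ?_
  · obtain ⟨_, ⟨y, hy, rfl⟩, hlim⟩ := h1
    refine ⟨y, hy, fun t => ?_⟩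
    have hev : Continuous fun z : WeakSpace ℂ CI =>
        (topDualPairing ℂ CI).flip z (ContinuousMap.evalCLM ℂ t) :=
      WeakBilin.eval_continuous _ (ContinuousMap.evalCLM ℂ t)
    have h2 := (hev.tendsto (toWeakSpace ℂ CI y)).comp
      (show Tendsto (fun k => toWeakSpace ℂ CI (h k)) (hyperfilter ℕ : Filter ℕ)
        (𝓝 (toWeakSpace ℂ CI y)) from hlim)
    exact h2
  · rw [Ultrafilter.coe_map, le_principal_iff, mem_map]
    exact Filter.univ_mem' fun k => ⟨h k, hh k, rfl⟩

lemma lb {L : Set CI} (hL : IsWeaklyCompact L) {c : ℝ} (d : ℕ) :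
    ∀ (r i : ℕ) (b : CI) (g : List ℕ → CI),
      (∀ ks : List ℕ, ks.length = d → g ks ∈ L ∧ ‖b + aa r i ks - g ks‖ ≤ c) →
      ∃ h ∈ L, (∀ l : List ℕ, l.length = r → (0 :: l).Pairwise (· < ·) →
          ‖h (P l) - (b (P l) + d)‖ ≤ c) ∧
        ∀ (t : unitInterval) (v : ℂ),
          (∀ ks : List ℕ, ks.length = d → ‖g ks t - v‖ ≤ c) → ‖h t - v‖ ≤ c := by
  induction d with
  | zero =>
    intro r i b g hg
    obtain ⟨h1, h2⟩ := hg [] rfl
    refine ⟨g [], h1, fun l _ _ => ?_, fun t v h => h [] rfl⟩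
    rw [aa_nil, add_zero] at h2
    have h3 := (ContinuousMap.norm_coe_le_norm (b - g []) (P l)).trans h2
    rw [ContinuousMap.sub_apply, norm_sub_rev] at h3
    simpa using h3
  | succ d ih =>
    intro r i b g hg
    have hstep : ∀ k : ℕ, ∃ h ∈ L, (∀ l : List ℕ, l.length = r + 1 → (0 :: l).Pairwise (· < ·) →
          ‖h (P l) - ((b + S r i (i + k)) (P l) + d)‖ ≤ c) ∧
        ∀ (t : unitInterval) (v : ℂ),
          (∀ ks : List ℕ, ks.length = d → ‖g (k :: ks) t - v‖ ≤ c) → ‖h t - v‖ ≤ c := by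
      intro k
      refine ih (r + 1) (i + k) (b + S r i (i + k)) (fun ks => g (k :: ks)) fun ks hks => ?_
      have h1 := hg (k :: ks) (by simp [hks])
      refine ⟨h1.1, ?_⟩
      rw [aa_cons, ← add_assoc] at h1
      exact h1.2
    choose h hhL hh1 hh2 using hstep
    obtain ⟨y, hyL, hy⟩ := exists_limit hL h hhL
    refine ⟨y, hyL, fun l hl hpw => ?_, fun t v hv => ?_⟩
    · -- value at the nearby points of the next level
      have hnext : ∀ᶠ j : ℕ in atTop, ‖y (P (l ++ [j])) - (b (P (l ++ [j])) + (d + 1 : ℕ))‖ ≤ c := by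
        have e1 : ∀ᶠ j : ℕ in atTop, (0 :: l).sum + i < j := eventually_gt_atTop _
        filter_upwards [e1] with j hj
        have hpw' : (0 :: (l ++ [j])).Pairwise (· < ·) := by
          rw [← List.cons_append, List.pairwise_append]
          refine ⟨hpw, by simp, fun a ha b hb => ?_⟩
          rw [List.mem_singleton] at hb
          subst hb
          have := List.single_le_sum (l := 0 :: l) (fun _ _ => Nat.zero_le _) a ha
          omega
        have hij : i < j := by omega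
        have hlim := (hy (P (l ++ [j]))).sub_const (b (P (l ++ [j])) + (d + 1 : ℕ))
        refine le_of_tendsto hlim.norm ?_
        have hcof : ∀ᶠ k in (hyperfilter ℕ : Filter ℕ), j < i + k := by
          have h1 : ∀ᶠ k : ℕ in atTop, j < i + k := by
            filter_upwards [eventually_gt_atTop j] with k hk
            omega
          rw [← Nat.cofinite_eq_atTop] at h1
          exact hyperfilter_le_cofinite h1
        filter_upwards [hcof] with k hk
        have h1 := hh1 k (l ++ [j]) (by simp [hl]) hpw'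
        rw [ContinuousMap.add_apply, ← hl, S_at_P hpw' hij hk] at h1
        have e2 : (b (P (l ++ [j])) + 1 + (d : ℂ)) = b (P (l ++ [j])) + ((d + 1 : ℕ) : ℂ) := by
          push_cast; ring
        rwa [e2] at h1
      have hPl := P_tendsto l
      have hcont : Tendsto (fun j : ℕ => ‖y (P (l ++ [j])) - (b (P (l ++ [j])) + (d + 1 : ℕ))‖)
          atTop (𝓝 ‖y (P l) - (b (P l) + (d + 1 : ℕ))‖) := by
        have hy' := (y.continuous.tendsto (P l)).comp hPl
        have hb' := (b.continuous.tendsto (P l)).comp hPl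
        exact (hy'.sub (hb'.add_const _)).norm
      exact le_of_tendsto hcont hnext
    · have hlim := (hy t).sub_const v
      refine le_of_tendsto hlim.norm (Filter.Eventually.of_forall fun k => ?_)
      exact hh2 k t v fun ks hks => hv (k :: ks) (by simp [hks])

/-! ### conclusion -/

/-- the bounded sets -/
def AA (n : ℕ) : Set CI := family 0 0 0 n

lemma AA_nonempty (n : ℕ) : (AA n).Nonempty := ⟨_, List.replicate n 0, by simp, rfl⟩

lemma AA_bounded (n : ℕ) : Bornology.IsBounded (AA n) := by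
  rw [Metric.isBounded_iff_subset_closedBall 0]
  refine ⟨n, ?_⟩
  rintro _ ⟨ks, hks, rfl⟩
  rw [mem_closedBall_zero_iff, zero_add]
  have := norm_aa_le ks 0 0
  rwa [hks] at this

lemma wk_AA (n : ℕ) : wk (AA n) ≤ ENNReal.ofReal (1 / 2) := by
  unfold wk
  refine iSup₂_le fun x hx => ?_
  obtain ⟨h, hh⟩ := ub n 0 0 0 x hx
  exact distToSpace_le x h hh

lemma omega_AA (n : ℕ) : ENNReal.ofReal (n / 2) ≤ omega (AA n) := by
  unfold omega
  refine le_iInf₂ fun L hL => ?_
  by_contra hlt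
  rw [not_le] at hlt
  obtain ⟨c, hc1, hc2⟩ := ENNReal.lt_iff_exists_nnreal_btwn.1 hlt
  have hcn : (c : ℝ) < n / 2 := by
    by_contra hge
    rw [not_lt] at hge
    have := ENNReal.ofReal_le_ofReal hge
    rw [ENNReal.ofReal_coe_nnreal] at this
    exact absurd hc2 (not_lt.2 this)
  have hex : ∀ ks : List ℕ, ∃ g : CI, ks.length = n → g ∈ L ∧ ‖0 + aa 0 0 ks - g‖ ≤ c := by
    intro ks
    by_cases hks : ks.length = n
    · have h1 : Metric.infEDist (0 + aa 0 0 ks) L ≤ ⨆ a ∈ AA n, Metric.infEDist a L :=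
        le_iSup₂ (f := fun a (_ : a ∈ AA n) => Metric.infEDist a L) (0 + aa 0 0 ks) ⟨ks, hks, rfl⟩
      obtain ⟨g, hgL, hg⟩ := Metric.infEDist_lt_iff.1 (h1.trans_lt hc1)
      refine ⟨g, fun _ => ⟨hgL, ?_⟩⟩
      rw [edist_dist, dist_eq_norm, ← ENNReal.ofReal_coe_nnreal,
        ENNReal.ofReal_lt_ofReal_iff_of_nonneg (norm_nonneg _)] at hg
      exact hg.le
    · exact ⟨0, fun h => absurd h hks⟩
  choose g hg using hex
  obtain ⟨h, _, h1, h2⟩ := lb hL.2 n 0 0 0 g hg
  have h3 := h1 [] rfl (by simp)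
  rw [P_nil, ContinuousMap.zero_apply, zero_add] at h3
  have h4 := h2 0 0 fun ks hks => by
    have h5 := (ContinuousMap.norm_coe_le_norm _ (0 : unitInterval)).trans (hg ks hks).2
    rw [ContinuousMap.sub_apply, zero_add, aa_at_zero, zero_sub, norm_neg] at h5
    rwa [sub_zero]
  rw [sub_zero] at h4
  have h5 : (n : ℝ) ≤ ‖h 0‖ + ‖h 0 - (n : ℂ)‖ := by
    have h6 := norm_sub_le (h 0) (h 0 - (n : ℂ))
    rw [sub_sub_cancel] at h6
    simpa using h6
  linarith

/-- bounded sequences have weak* cluster points -/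
lemma clust_nonempty {E : Type*} [NormedAddCommGroup E] [NormedSpace ℂ E] {s : ℕ → E} {R : ℝ}
    (hR : ∀ n, ‖s n‖ ≤ R) : (clust s).Nonempty := by
  have hcomp := WeakDual.isCompact_closedBall (𝕜 := ℂ) (0 : StrongDual ℂ (StrongDual ℂ E)) R
  obtain ⟨y, _, hy⟩ := hcomp.exists_mapClusterPt (f := atTop)
    (u := fun n => StrongDual.toWeakDual (inclusionInDoubleDual ℂ E (s n))) (by
      rw [le_principal_iff, mem_map]
      refine Filter.univ_mem' fun n => ?_
      show WeakDual.toStrongDual (StrongDual.toWeakDual (inclusionInDoubleDual ℂ E (s n))) ∈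
        Metric.closedBall 0 R
      have h1 := hR n
      have h2 : ‖inclusionInDoubleDual ℂ E (s n)‖ ≤ R := by
        refine ContinuousLinearMap.opNorm_le_bound _ ((norm_nonneg _).trans h1) fun μ => ?_
        show ‖μ (s n)‖ ≤ R * ‖μ‖
        refine (μ.le_opNorm (s n)).trans ?_
        rw [mul_comm]
        exact mul_le_mul_of_nonneg_right h1 (norm_nonneg _)
      exact (mem_closedBall_zero_iff (E := StrongDual ℂ (StrongDual ℂ E))).2 h2)
  refine ⟨WeakDual.toStrongDual y, fun F ε hε N => ?_⟩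
  have h1 : ∀ μ ∈ F, {z : WeakDual ℂ (StrongDual ℂ E) | ‖y μ - z μ‖ < ε} ∈ 𝓝 y := by
    intro μ _
    have hc : Continuous fun z : WeakDual ℂ (StrongDual ℂ E) => z μ :=
      WeakDual.eval_continuous μ
    have ho : IsOpen {z : WeakDual ℂ (StrongDual ℂ E) | ‖y μ - z μ‖ < ε} :=
      isOpen_lt (continuous_const.sub hc).norm continuous_const
    exact ho.mem_nhds (by simpa using hε)
  have h2 := (mapClusterPt_iff_frequently.1 hy) _ ((Filter.biInter_finset_mem F).2 h1)
  rw [frequently_atTop] at h2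
  obtain ⟨n, hn, hn2⟩ := h2 N
  exact ⟨n, hn, fun μ hμ => Set.mem_iInter₂.1 hn2 μ hμ⟩

/-- `wck ≤ wk` on bounded sets. -/
lemma wck_le_wk {E : Type*} [NormedAddCommGroup E] [NormedSpace ℂ E] {A : Set E}
    (hA : Bornology.IsBounded A) : wck A ≤ wk A := by
  unfold wck
  refine iSup₂_le fun s hs => ?_
  obtain ⟨R, hR⟩ := (Metric.isBounded_iff_subset_closedBall (0 : E)).1 hA
  obtain ⟨y, hy⟩ := clust_nonempty (s := s) (R := R) fun n => by
    have := hR (hs n)
    rwa [mem_closedBall_zero_iff] at this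
  have hcl : y ∈ weakStarClosure A := by
    intro F ε hε
    obtain ⟨n, _, hn⟩ := hy F ε hε 0
    exact ⟨s n, hs n, hn⟩
  exact (iInf₂_le y hy).trans (le_iSup₂ (f := fun a (_ : a ∈ weakStarClosure A) =>
    distToSpace a) y hcl)

theorem main : ∀ c : NNReal, ∃ A : Set C(unitInterval, ℂ), A.Nonempty ∧ Bornology.IsBounded A ∧
    c * wk A < omega A ∧ c * wck A < omega A := by
  intro c
  obtain ⟨n, hn⟩ := exists_nat_gt (c : ℝ)
  have hkey : c * wk (AA n) < omega (AA n) := by
    calc (c : ℝ≥0∞) * wk (AA n) ≤ c * ENNReal.ofReal (1 / 2) := by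
          gcongr
          exact wk_AA n
      _ = ENNReal.ofReal (c * (1 / 2)) := by
          have h := ENNReal.ofReal_mul (p := (c : ℝ)) (q := 1 / 2) c.2
          rw [h, ENNReal.ofReal_coe_nnreal]
      _ < ENNReal.ofReal (n / 2) := by
          rw [ENNReal.ofReal_lt_ofReal_iff_of_nonneg (by positivity)]
          linarith
      _ ≤ omega (AA n) := omega_AA n
  refine ⟨AA n, AA_nonempty n, AA_bounded n, hkey, lt_of_le_of_lt ?_ hkey⟩
  gcongr
  exact wck_le_wk (AA_bounded n)

end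

end Pool.Agent.WeakNonCompactness
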